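import Mathlib

set_option autoImplicit false
set_option linter.unusedSectionVars false
set_option linter.deprecated false

open MeasureTheory Set Filter Topology Real

namespace Pool.Agent.TH199.MY

/-- The first profile. -/
noncomputable def fA (a w t : ℝ) : ℝ := w ^ 2 / ((t - a) ^ 2 + w ^ 2)

/-- The second profile. -/
noncomputable def fB (a w t : ℝ) : ℝ := (t - a) * w / ((t - a) ^ 2 + w ^ 2)

lemma den_pos (a t : ℝ) {w : ℝ} (hw : 0 < w) : 0 < (t - a) ^ 2 + w ^ 2 := by positivity

lemma fA_nonneg (a w t : ℝ) : 0 ≤ fA a w t := by unfold fA; positivity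

lemma fA_le (a w t : ℝ) : fA a w t ≤ 1 := by
  unfold fA
  exact div_le_one_of_le₀ (by nlinarith [sq_nonneg (t - a)]) (by positivity)

lemma fB_abs (a w t : ℝ) : |fB a w t| ≤ 1 / 2 := by
  unfold fB
  rw [abs_div, abs_of_nonneg (by positivity : 0 ≤ (t - a) ^ 2 + w ^ 2)]
  refine div_le_of_le_mul₀ (by positivity) (by norm_num) ?_
  rw [abs_le]
  constructor <;> nlinarith [sq_nonneg (t - a - w), sq_nonneg (t - a + w)]

lemma fA_cont : Continuous fun p : (ℝ × ℝ) × ℝ => fA p.1.1 (exp p.1.2) p.2 := by
  unfold fA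
  refine Continuous.div (by fun_prop) (by fun_prop) fun p => ?_
  have := exp_pos p.1.2
  positivity

lemma fB_cont : Continuous fun p : (ℝ × ℝ) × ℝ => fB p.1.1 (exp p.1.2) p.2 := by
  unfold fB
  refine Continuous.div (by fun_prop) (by fun_prop) fun p => ?_
  have := exp_pos p.1.2
  positivity

variable {m : Measure ℝ} [IsFiniteMeasure m]

lemma fA_int (a y : ℝ) : Integrable (fA a (exp y)) m := by
  refine Integrable.of_bound (C := 1) ?_ (Eventually.of_forall fun t => ?_)
  · exact (fA_cont.comp (by fun_prop : Continuous fun t : ℝ => ((a, y), t))).aestronglyMeasurable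
  · rw [Real.norm_eq_abs, abs_of_nonneg (fA_nonneg _ _ _)]; exact fA_le _ _ _

lemma fB_int (a y : ℝ) : Integrable (fB a (exp y)) m := by
  refine Integrable.of_bound (C := 1 / 2) ?_ (Eventually.of_forall fun t => ?_)
  · exact (fB_cont.comp (by fun_prop : Continuous fun t : ℝ => ((a, y), t))).aestronglyMeasurable
  · rw [Real.norm_eq_abs]; exact fB_abs _ _ _

lemma A_cont : Continuous fun p : ℝ × ℝ => ∫ t, fA p.1 (exp p.2) t ∂m := by
  refine continuous_of_dominated (bound := fun _ => 1) (fun p => (fA_int _ _).1)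
    (fun p => Eventually.of_forall fun t => ?_) (integrable_const _)
    (Eventually.of_forall fun t => ?_)
  · rw [Real.norm_eq_abs, abs_of_nonneg (fA_nonneg _ _ _)]; exact fA_le _ _ _
  · exact fA_cont.comp (by fun_prop : Continuous fun p : ℝ × ℝ => (p, t))

lemma B_cont : Continuous fun p : ℝ × ℝ => ∫ t, fB p.1 (exp p.2) t ∂m := by
  refine continuous_of_dominated (bound := fun _ => 1 / 2) (fun p => (fB_int _ _).1)
    (fun p => Eventually.of_forall fun t => ?_) (integrable_const _)
    (Eventually.of_forall fun t => ?_)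
  · rw [Real.norm_eq_abs]; exact fB_abs _ _ _
  · exact fB_cont.comp (by fun_prop : Continuous fun p : ℝ × ℝ => (p, t))

lemma fA_lt {a t y₁ y₂ : ℝ} (hy : y₁ < y₂) (ht : t ≠ a) :
    fA a (exp y₁) t < fA a (exp y₂) t := by
  have h1 := exp_pos y₁
  have h2 : exp y₁ < exp y₂ := exp_lt_exp.2 hy
  have h3 : 0 < (t - a) ^ 2 := by
    have : t - a ≠ 0 := sub_ne_zero.2 ht
    positivity
  unfold fA
  rw [div_lt_div_iff₀ (by positivity) (by positivity)]
  have h4 : exp y₁ ^ 2 < exp y₂ ^ 2 := pow_lt_pow_left₀ h2 h1.le (by norm_num)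
  nlinarith

lemma A_lt (h0 : ∀ t, m {t} = 0) (hm : m univ ≠ 0) (a : ℝ) {y₁ y₂ : ℝ} (hy : y₁ < y₂) :
    ∫ t, fA a (exp y₁) t ∂m < ∫ t, fA a (exp y₂) t ∂m := by
  rw [← sub_pos, ← integral_sub (fA_int _ _) (fA_int _ _)]
  rw [integral_pos_iff_support_of_nonneg_ae]
  · refine lt_of_lt_of_le ?_ (measure_mono (s := {a}ᶜ) fun t ht => ?_)
    · rw [measure_compl (measurableSet_singleton a) (by rw [h0]; exact ENNReal.zero_ne_top), h0,
        tsub_zero]
      exact pos_iff_ne_zero.2 hm
    · rw [Function.mem_support]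
      exact (sub_pos.2 (fA_lt hy ht)).ne'
  · filter_upwards with t
    simp only [Pi.zero_apply, sub_nonneg]
    rcases eq_or_ne t a with h | h
    · have h1 := exp_pos y₁
      have h2 := exp_pos y₂
      unfold fA
      rw [h, sub_self]
      have e1 : exp y₁ ^ 2 ≠ 0 := by positivity
      have e2 : exp y₂ ^ 2 ≠ 0 := by positivity
      simp [e1, e2]
    · exact (fA_lt hy h).le
  · exact (fA_int _ _).sub (fA_int _ _)

lemma exists_y (h0 : ∀ t, m {t} = 0) (hm : m.real univ = 2) (a : ℝ) :
    ∃ y, ∫ t, fA a (exp y) t ∂m = 1 := by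
  have hc : Continuous fun y : ℝ => ∫ t, fA a (exp y) t ∂m :=
    A_cont.comp (by fun_prop : Continuous fun y : ℝ => (a, y))
  have hae : ∀ᵐ t ∂m, t ≠ a := by
    rw [ae_iff]
    simpa using h0 a
  have l1 : Tendsto (fun y : ℝ => ∫ t, fA a (exp y) t ∂m) atBot (𝓝 (∫ t, (0:ℝ) ∂m)) := by
    refine tendsto_integral_filter_of_dominated_convergence (fun _ => 1)
      (Eventually.of_forall fun y => (fA_int _ _).1)
      (Eventually.of_forall fun y => Eventually.of_forall fun t => ?_) (integrable_const _) ?_
    · rw [Real.norm_eq_abs, abs_of_nonneg (fA_nonneg _ _ _)]; exact fA_le _ _ _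
    · filter_upwards [hae] with t ht
      have h3 : (t - a) ^ 2 ≠ 0 := by
        have : t - a ≠ 0 := sub_ne_zero.2 ht
        positivity
      have h4 : ContinuousAt (fun w : ℝ => w ^ 2 / ((t - a) ^ 2 + w ^ 2)) 0 := by
        refine ContinuousAt.div (by fun_prop) (by fun_prop) ?_
        simpa using h3
      have h5 := h4.tendsto.comp tendsto_exp_atBot
      simpa [fA, Function.comp_def] using h5
  have l2 : Tendsto (fun y : ℝ => ∫ t, fA a (exp y) t ∂m) atTop (𝓝 (∫ t, (1:ℝ) ∂m)) := by
    refine tendsto_integral_filter_of_dominated_convergence (fun _ => 1)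
      (Eventually.of_forall fun y => (fA_int _ _).1)
      (Eventually.of_forall fun y => Eventually.of_forall fun t => ?_) (integrable_const _) ?_
    · rw [Real.norm_eq_abs, abs_of_nonneg (fA_nonneg _ _ _)]; exact fA_le _ _ _
    · filter_upwards with t
      have h4 : ContinuousAt (fun v : ℝ => 1 / ((t - a) ^ 2 * v ^ 2 + 1)) 0 := by
        refine ContinuousAt.div (by fun_prop) (by fun_prop) ?_
        simp
      have h6 : Tendsto (fun y : ℝ => exp (-y)) atTop (𝓝 0) := tendsto_exp_neg_atTop_nhds_zero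
      have h5 := h4.tendsto.comp h6
      have e : ∀ y : ℝ, fA a (exp y) t = 1 / ((t - a) ^ 2 * exp (-y) ^ 2 + 1) := by
        intro y
        have := exp_pos y
        rw [fA, exp_neg]
        field_simp
      simp only [e]
      simpa [Function.comp_def] using h5
  rw [integral_zero] at l1
  rw [integral_const, hm] at l2
  simp only [smul_eq_mul, mul_one] at l2
  obtain ⟨y₁, hy₁⟩ := (l1.eventually (gt_mem_nhds (show (0:ℝ) < 1 by norm_num))).exists
  obtain ⟨y₂, hy₂⟩ := (l2.eventually (lt_mem_nhds (show (1:ℝ) < 2 by norm_num))).exists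
  exact mem_range_of_exists_le_of_exists_ge hc ⟨y₁, hy₁.le⟩ ⟨y₂, hy₂.le⟩

lemma w_bounds (hm : m.real univ = 2) {T a y : ℝ} (hT : 0 < T)
    (hD : 19 / 10 ≤ m.real (Icc (-T) T)) (h1 : ∫ t, fA a (exp y) t ∂m = 1)
    (ha : ∀ t ∈ Icc (-T) T, 81 * T ^ 2 ≤ (t - a) ^ 2 ∧ (t - a) ^ 2 ≤ 121 * T ^ 2) :
    8 * T ≤ exp y ∧ exp y ≤ 12 * T := by
  have hw := exp_pos y
  set w := exp y
  set D := Icc (-T) T
  have hDm : MeasurableSet D := measurableSet_Icc
  have hD2 : m.real D ≤ 2 := by rw [← hm]; exact measureReal_mono (subset_univ _)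
  have hi : ∀ c : ℝ, Integrable (D.indicator fun _ => c) m := fun c =>
    (integrable_const c).indicator hDm
  have hv : ∀ c : ℝ, ∫ t, D.indicator (fun _ => c) t ∂m = m.real D * c := fun c => by
    rw [integral_indicator hDm, setIntegral_const, smul_eq_mul]
  constructor
  · -- upper bound for the integral
    have h2 : ∀ t, fA a w t ≤ 1 - D.indicator (fun _ => 1 - w ^ 2 / (81 * T ^ 2 + w ^ 2)) t := by
      intro t
      by_cases ht : t ∈ D
      · rw [indicator_of_mem ht]
        have h3 : fA a w t ≤ w ^ 2 / (81 * T ^ 2 + w ^ 2) := by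
          unfold fA
          exact div_le_div_of_nonneg_left (by positivity) (by positivity)
            (by linarith [(ha t ht).1])
        linarith
      · rw [indicator_of_notMem ht]
        linarith [fA_le a w t]
    have h3 := integral_mono (fA_int a y) ((integrable_const (1:ℝ)).sub (hi _)) h2
    rw [integral_sub' (integrable_const _) (hi _), hv, integral_const, hm, h1] at h3
    simp only [smul_eq_mul, mul_one] at h3
    have h4 : w ^ 2 / (81 * T ^ 2 + w ^ 2) ≤ 1 :=
      div_le_one_of_le₀ (by nlinarith) (by positivity)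
    have h5 : 19 / 10 * (1 - w ^ 2 / (81 * T ^ 2 + w ^ 2)) ≤ 1 := by
      refine (mul_le_mul_of_nonneg_right hD (by linarith)).trans ?_
      linarith
    have h6 : 9 / 19 ≤ w ^ 2 / (81 * T ^ 2 + w ^ 2) := by linarith
    rw [le_div_iff₀ (by positivity)] at h6
    refine le_of_sq_le_sq ?_ hw.le
    nlinarith
  · have h2 : ∀ t, D.indicator (fun _ => w ^ 2 / (121 * T ^ 2 + w ^ 2)) t ≤ fA a w t := by
      intro t
      by_cases ht : t ∈ D
      · rw [indicator_of_mem ht]
        unfold fA
        exact div_le_div_of_nonneg_left (by positivity) (by positivity)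
            (by linarith [(ha t ht).2])
      · rw [indicator_of_notMem ht]
        exact fA_nonneg _ _ _
    have h3 := integral_mono (hi _) (fA_int a y) h2
    rw [hv, h1] at h3
    have h5 : 19 / 10 * (w ^ 2 / (121 * T ^ 2 + w ^ 2)) ≤ 1 :=
      (mul_le_mul_of_nonneg_right hD (by positivity)).trans h3
    have h6 : w ^ 2 / (121 * T ^ 2 + w ^ 2) ≤ 10 / 19 := by linarith
    rw [div_le_iff₀ (by positivity)] at h6
    refine le_of_sq_le_sq ?_ (by positivity)
    nlinarith

/-- Existence of the balanced profile. -/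
theorem balanced (h0 : ∀ t, m {t} = 0) (hm : m.real univ = 2) :
    ∃ a w : ℝ, 0 < w ∧ ∫ t, fA a w t ∂m = 1 ∧ ∫ t, fB a w t ∂m = 0 := by
  have hm0 : m univ ≠ 0 := by
    intro h
    rw [measureReal_def, h] at hm
    norm_num at hm
  choose Y hY using exists_y h0 hm
  have hYc : Continuous Y := by
    rw [continuous_iff_continuousAt]
    intro a
    rw [ContinuousAt, tendsto_order]
    constructor
    · intro b hb
      have h1 : ∫ t, fA a (exp b) t ∂m < 1 := by
        rw [← hY a]; exact A_lt h0 hm0 a hb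
      have hc : Continuous fun a' : ℝ => ∫ t, fA a' (exp b) t ∂m :=
        A_cont.comp (by fun_prop : Continuous fun a' : ℝ => (a', b))
      filter_upwards [hc.continuousAt.eventually_lt_const h1] with a' ha'
      by_contra hcon
      push Not at hcon
      rcases hcon.eq_or_lt with h2 | h2
      · rw [← h2, hY] at ha'; exact lt_irrefl _ ha'
      · have := A_lt h0 hm0 a' h2
        rw [hY] at this
        linarith
    · intro b hb
      have h1 : 1 < ∫ t, fA a (exp b) t ∂m := by
        rw [← hY a]; exact A_lt h0 hm0 a hb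
      have hc : Continuous fun a' : ℝ => ∫ t, fA a' (exp b) t ∂m :=
        A_cont.comp (by fun_prop : Continuous fun a' : ℝ => (a', b))
      filter_upwards [hc.continuousAt.eventually_const_lt h1] with a' ha'
      by_contra hcon
      push Not at hcon
      rcases hcon.eq_or_lt with h2 | h2
      · rw [h2, hY] at ha'; exact lt_irrefl _ ha'
      · have := A_lt h0 hm0 a' h2
        rw [hY] at this
        linarith
  have hBc : Continuous fun a => ∫ t, fB a (exp (Y a)) t ∂m :=
    B_cont.comp (by fun_prop : Continuous fun a : ℝ => (a, Y a))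
  -- a large interval
  obtain ⟨T, hT, hD⟩ : ∃ T : ℝ, 0 < T ∧ 19 / 10 ≤ m.real (Icc (-T) T) := by
    have hmono : Monotone fun n : ℕ => Icc (-(n:ℝ)) n := by
      intro i j hij
      have : (i:ℝ) ≤ j := by exact_mod_cast hij
      exact Icc_subset_Icc (by linarith) this
    have hU : ⋃ n : ℕ, Icc (-(n:ℝ)) n = univ := by
      refine eq_univ_of_forall fun x => mem_iUnion.2 ?_
      obtain ⟨n, hn⟩ := exists_nat_ge |x|
      exact ⟨n, (abs_le.1 hn).1, (abs_le.1 hn).2⟩
    have h1 := tendsto_measure_iUnion_atTop (μ := m) hmono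
    rw [hU] at h1
    have h2 : Tendsto (fun n : ℕ => m.real (Icc (-(n:ℝ)) n)) atTop (𝓝 (m.real univ)) :=
      (ENNReal.tendsto_toReal (measure_ne_top m _)).comp h1
    rw [hm] at h2
    obtain ⟨n, hn, hn1⟩ := ((h2.eventually (lt_mem_nhds
      (show (19 / 10 : ℝ) < 2 by norm_num))).and (eventually_ge_atTop 1)).exists
    exact ⟨n, by exact_mod_cast hn1, hn.le⟩
  set D := Icc (-T) T
  have hDm : MeasurableSet D := measurableSet_Icc
  have hi : ∀ c : ℝ, Integrable (D.indicator fun _ => c) m := fun c =>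
    (integrable_const c).indicator hDm
  have hv : ∀ c : ℝ, ∫ t, D.indicator (fun _ => c) t ∂m = m.real D * c := fun c => by
    rw [integral_indicator hDm, setIntegral_const, smul_eq_mul]
  have p1 : 0 ≤ ∫ t, fB (-(10 * T)) (exp (Y (-(10 * T)))) t ∂m := by
    obtain ⟨hw1, hw2⟩ := w_bounds hm hT hD (hY (-(10 * T))) (fun t ht => by
      obtain ⟨h1, h2⟩ := ht
      constructor <;> nlinarith)
    set w := exp (Y (-(10 * T)))
    have h2 : ∀ t, D.indicator (fun _ => (24 / 25 : ℝ)) t - 1 / 2 ≤ fB (-(10 * T)) w t := by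
      intro t
      by_cases ht : t ∈ D
      · rw [indicator_of_mem ht]
        obtain ⟨h1, h2⟩ := ht
        unfold fB
        rw [le_div_iff₀ (by positivity)]
        set u := t - -(10 * T) with hu
        have h3 : 9 * T ≤ u := by rw [hu]; linarith
        have h4 : u ≤ 11 * T := by rw [hu]; linarith
        have h5 : 0 ≤ (w - 7 / 10 * u) * (14 / 10 * u - w) :=
          mul_nonneg (by linarith) (by linarith)
        nlinarith
      · rw [indicator_of_notMem ht]
        have := (abs_le.1 (fB_abs (-(10 * T)) w t)).1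
        linarith
    have h3 := integral_mono ((hi _).sub (integrable_const _)) (fB_int (-(10 * T)) _) h2
    rw [integral_sub' (hi _) (integrable_const _), hv, integral_const, hm] at h3
    simp only [smul_eq_mul] at h3
    linarith
  have p2 : ∫ t, fB (10 * T) (exp (Y (10 * T))) t ∂m ≤ 0 := by
    obtain ⟨hw1, hw2⟩ := w_bounds hm hT hD (hY (10 * T)) (fun t ht => by
      obtain ⟨h1, h2⟩ := ht
      constructor <;> nlinarith)
    set w := exp (Y (10 * T))
    have h2 : ∀ t, fB (10 * T) w t ≤ 1 / 2 - D.indicator (fun _ => (24 / 25 : ℝ)) t := by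
      intro t
      by_cases ht : t ∈ D
      · rw [indicator_of_mem ht]
        obtain ⟨h1, h2⟩ := ht
        unfold fB
        rw [div_le_iff₀ (by positivity)]
        set u := t - 10 * T with hu
        have h3 : u ≤ -(9 * T) := by rw [hu]; linarith
        have h4 : -(11 * T) ≤ u := by rw [hu]; linarith
        have h5 : 0 ≤ (w + 7 / 10 * u) * (-(14 / 10 * u) - w) :=
          mul_nonneg (by linarith) (by linarith)
        nlinarith
      · rw [indicator_of_notMem ht]
        have := (abs_le.1 (fB_abs (10 * T) w t)).2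
        linarith
    have h3 := integral_mono (fB_int (10 * T) _) ((integrable_const _).sub (hi _)) h2
    rw [integral_sub' (integrable_const _) (hi _), hv, integral_const, hm] at h3
    simp only [smul_eq_mul] at h3
    linarith
  obtain ⟨a, ha⟩ := mem_range_of_exists_le_of_exists_ge hBc ⟨_, p2⟩ ⟨_, p1⟩
  exact ⟨a, exp (Y a), exp_pos _, hY a, ha⟩

/-- The mass of the slab. -/
theorem slab (hm : m.real univ = 2) {a w : ℝ} (hw : 0 < w)
    (h1 : ∫ t, fA a w t ∂m = 1) : 8 / 9 ≤ m.real {t | |t - a| ≤ 3 * w} := by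
  have hDm : MeasurableSet {t : ℝ | |t - a| ≤ 3 * w} :=
    (isClosed_le (by fun_prop) (by fun_prop)).measurableSet
  set D := {t : ℝ | |t - a| ≤ 3 * w}
  have e : w = exp (log w) := (exp_log hw).symm
  have hfi : Integrable (fA a w) m := by rw [e]; exact fA_int _ _
  have h2 : ∀ t, fA a w t ≤ 1 / 10 + D.indicator (fun _ => (9 / 10 : ℝ)) t := by
    intro t
    by_cases ht : t ∈ D
    · rw [indicator_of_mem ht]
      linarith [fA_le a w t]
    · rw [indicator_of_notMem ht]
      have h3 : 3 * w < |t - a| := not_le.1 ht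
      have h4 : (3 * w) ^ 2 ≤ (t - a) ^ 2 := by
        rw [← sq_abs (t - a)]
        exact pow_le_pow_left₀ (by positivity) h3.le 2
      unfold fA
      rw [add_zero, div_le_div_iff₀ (by positivity) (by norm_num)]
      nlinarith
  have h3 := integral_mono hfi ((integrable_const _).add ((integrable_const _).indicator hDm)) h2
  rw [integral_add' (integrable_const _) ((integrable_const _).indicator hDm), integral_const, hm,
    integral_indicator hDm, setIntegral_const, h1] at h3
  simp only [smul_eq_mul] at h3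
  linarith

end Pool.Agent.TH199.MY
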