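import Pool.Agent.TH199.MY.Bal

set_option autoImplicit false
set_option linter.unusedSectionVars false
set_option linter.deprecated false

open MeasureTheory Set Filter Topology Real

namespace Pool.Agent.TH199.MY

/-- Three-dimensional space. -/
abbrev E := EuclideanSpace ℝ (Fin 3)

/-- A linear functional. -/
noncomputable def ell (c : Fin 3 → ℝ) (x : E) : ℝ := c 0 * x 0 + c 1 * x 1 + c 2 * x 2

lemma ell_cont (c : Fin 3 → ℝ) : Continuous (ell c) := by
  unfold ell; fun_prop

/-- As a linear map. -/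
noncomputable def ellL (c : Fin 3 → ℝ) : E →ₗ[ℝ] ℝ where
  toFun := ell c
  map_add' x y := by simp only [ell, PiLp.add_apply]; ring
  map_smul' r x := by simp only [ell, PiLp.smul_apply, smul_eq_mul, RingHom.id_apply]; ring

lemma ell_null {c : Fin 3 → ℝ} (hc : c ≠ 0) (t : ℝ) : volume (ell c ⁻¹' {t}) = 0 := by
  rcases (ell c ⁻¹' {t}).eq_empty_or_nonempty with h | ⟨x₀, hx₀⟩
  · rw [h, measure_empty]
  · have hK : LinearMap.ker (ellL c) ≠ ⊤ := by
      intro h
      apply hc
      funext i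
      have h1 : (EuclideanSpace.single i (1:ℝ) : E) ∈ LinearMap.ker (ellL c) := by
        rw [h]; trivial
      have h2 : ell c (EuclideanSpace.single i (1:ℝ)) = 0 := h1
      fin_cases i <;> simpa [ell] using h2
    have h1 := Measure.addHaar_affineSubspace (volume : Measure E)
      (AffineSubspace.mk' x₀ (LinearMap.ker (ellL c))) (by
        intro h
        apply hK
        have := congrArg AffineSubspace.direction h
        rwa [AffineSubspace.direction_mk', AffineSubspace.direction_top] at this)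
    refine measure_mono_null (fun x hx => ?_) h1
    rw [SetLike.mem_coe, AffineSubspace.mem_mk', LinearMap.mem_ker, vsub_eq_sub, map_sub, sub_eq_zero]
    have e1 : ell c x = t := hx
    have e2 : ell c x₀ = t := hx₀
    change ell c x = ell c x₀
    rw [e1, e2]

variable {ρ : E → ℝ} (h0 : ∀ x, 0 ≤ ρ x) (hi : Integrable ρ) (h2 : ∫ x, ρ x = 2)
include h0 hi h2

/-- The measure with density `ρ`. -/
noncomputable def mu (ρ : E → ℝ) : Measure E := volume.withDensity fun x => ENNReal.ofReal (ρ x)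

omit h0 h2 in
lemma mu_int (f : E → ℝ) (h0 : ∀ x, 0 ≤ ρ x) : ∫ x, f x ∂(mu ρ) = ∫ x, ρ x * f x := by
  rw [mu, integral_withDensity_eq_integral_toReal_smul₀ hi.1.aemeasurable.ennreal_ofReal
    (Eventually.of_forall fun _ => ENNReal.ofReal_lt_top)]
  refine integral_congr_ae (Eventually.of_forall fun x => ?_)
  simp only [smul_eq_mul]
  rw [ENNReal.toReal_ofReal (h0 x)]

lemma mu_univ : mu ρ univ = ENNReal.ofReal 2 := by
  rw [mu, withDensity_apply _ MeasurableSet.univ, Measure.restrict_univ,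
    ← ofReal_integral_eq_lintegral_ofReal hi (Eventually.of_forall h0), h2]

lemma mu_fin : IsFiniteMeasure (mu ρ) := ⟨by rw [mu_univ h0 hi h2]; exact ENNReal.ofReal_lt_top⟩

/-- The balanced functions in a given direction. -/
theorem dir {c : Fin 3 → ℝ} (hc : c ≠ 0) :
    ∃ a w : ℝ, 0 < w ∧ ∫ x, ρ x * fA a w (ell c x) = 1 ∧ ∫ x, ρ x * fB a w (ell c x) = 0 ∧
      8 / 9 ≤ (mu ρ).real {x | |ell c x - a| ≤ 3 * w} := by
  have := mu_fin h0 hi h2
  have hm : Measurable (ell c) := (ell_cont c).measurable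
  have hr : ((mu ρ).map (ell c)).real univ = 2 := by
    rw [measureReal_def, Measure.map_apply hm MeasurableSet.univ, preimage_univ,
      mu_univ h0 hi h2, ENNReal.toReal_ofReal (by norm_num)]
  have hn : ∀ t, ((mu ρ).map (ell c)) {t} = 0 := by
    intro t
    rw [Measure.map_apply hm (measurableSet_singleton t)]
    exact withDensity_absolutelyContinuous _ _ (ell_null hc t)
  obtain ⟨a, w, hw, h3, h4⟩ := balanced hn hr
  have h5 := slab hr hw h3
  have e : w = exp (log w) := (exp_log hw).symm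
  have hfa : AEStronglyMeasurable (fA a w) ((mu ρ).map (ell c)) := by
    rw [e]; exact (fA_int _ _).1
  have hfb : AEStronglyMeasurable (fB a w) ((mu ρ).map (ell c)) := by
    rw [e]; exact (fB_int _ _).1
  refine ⟨a, w, hw, ?_, ?_, ?_⟩
  · rw [← mu_int hi _ h0, ← h3, integral_map hm.aemeasurable hfa]
  · rw [← mu_int hi _ h0, ← h4, integral_map hm.aemeasurable hfb]
  · rw [measureReal_def, Measure.map_apply hm
      (isClosed_le (by fun_prop) (by fun_prop)).measurableSet] at h5
    exact h5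

omit h0 hi h2

/-- The five directions. -/
def cc : Fin 5 → Fin 3 → ℝ := ![![1, 0, 0], ![0, 1, 0], ![0, 0, 1], ![1, 1, 1], ![1, 2, 3]]

lemma cc_ne (k : Fin 5) : cc k ≠ 0 := by
  intro h
  fin_cases k
  · have := congrFun h 0; simp [cc] at this
  · have := congrFun h 1; simp [cc] at this
  · have := congrFun h 2; simp [cc] at this
  · have := congrFun h 0; simp [cc] at this
  · have := congrFun h 0; simp [cc] at this

lemma cc_sq (k : Fin 5) : ∑ i, cc k i ^ 2 ≤ 14 := by
  fin_cases k <;> simp [cc, Fin.sum_univ_three] <;> norm_num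

lemma tri {k l n : Fin 5} (hkl : k ≠ l) (hkn : k ≠ n) (hln : l ≠ n) {v : E} {ε : ℝ}
    (h1 : |ell (cc k) v| ≤ ε) (h2 : |ell (cc l) v| ≤ ε) (h3 : |ell (cc n) v| ≤ ε) :
    ‖v‖ ≤ 14 * ε := by
  have key : |v 0| ≤ 8 * ε ∧ |v 1| ≤ 8 * ε ∧ |v 2| ≤ 8 * ε := by
    rw [abs_le] at h1 h2 h3
    fin_cases k <;> fin_cases l <;> fin_cases n <;>
      first
      | exact absurd rfl hkl
      | exact absurd rfl hkn
      | exact absurd rfl hln
      | (simp [ell, cc] at h1 h2 h3
         refine ⟨abs_le.2 ⟨?_, ?_⟩, abs_le.2 ⟨?_, ?_⟩, abs_le.2 ⟨?_, ?_⟩⟩ <;> linarith)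
  obtain ⟨k1, k2, k3⟩ := key
  have hε : 0 ≤ ε := (abs_nonneg _).trans h1
  rw [EuclideanSpace.norm_eq, Fin.sum_univ_three]
  refine Real.sqrt_le_iff.2 ⟨by positivity, ?_⟩
  simp only [Real.norm_eq_abs]
  have j1 := pow_le_pow_left₀ (abs_nonneg _) k1 2
  have j2 := pow_le_pow_left₀ (abs_nonneg _) k2 2
  have j3 := pow_le_pow_left₀ (abs_nonneg _) k3 2
  nlinarith

end Pool.Agent.TH199.MY
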