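import Pool.Agent.TH199.MY.Geo

set_option autoImplicit false
set_option linter.unusedSectionVars false
set_option linter.deprecated false

open MeasureTheory Set Filter Topology Real

namespace Pool.Agent.TH199.MY

lemma young {r κ : ℝ} (hr : 0 ≤ r) (hκ : 0 < κ) : κ ^ 2 * r ≤ r ^ (5 / 3 : ℝ) + κ ^ 5 := by
  have hr5 : r ^ (5 / 3 : ℝ) = (r ^ (1 / 3 : ℝ)) ^ 5 := by
    rw [← Real.rpow_natCast, ← Real.rpow_mul hr]; norm_num
  have hr1 : r = (r ^ (1 / 3 : ℝ)) ^ 3 := by
    rw [← Real.rpow_natCast, ← Real.rpow_mul hr]; norm_num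
  rw [hr5]
  conv_lhs => rw [hr1]
  have hs : 0 ≤ r ^ (1 / 3 : ℝ) := by positivity
  set s := r ^ (1 / 3 : ℝ)
  rcases le_total s κ with h | h
  · have h1 : s ^ 3 ≤ κ ^ 3 := pow_le_pow_left₀ hs h 3
    have h2 : κ ^ 2 * s ^ 3 ≤ κ ^ 2 * κ ^ 3 := mul_le_mul_of_nonneg_left h1 (by positivity)
    have h3 : κ ^ 2 * κ ^ 3 = κ ^ 5 := by ring
    have h4 : 0 ≤ s ^ 5 := by positivity
    linarith
  · have h1 : κ ^ 2 ≤ s ^ 2 := pow_le_pow_left₀ hκ.le h 2
    have h2 : κ ^ 2 * s ^ 3 ≤ s ^ 2 * s ^ 3 := mul_le_mul_of_nonneg_right h1 (by positivity)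
    have h3 : s ^ 2 * s ^ 3 = s ^ 5 := by ring
    have h4 : 0 ≤ κ ^ 5 := by positivity
    linarith

/-- The set of points in three of the slabs. -/
lemma pigeon {μ : Measure E} [IsFiniteMeasure μ] (hμ : μ.real univ = 2) {S : Fin 5 → Set E}
    (hS : ∀ k, MeasurableSet (S k)) (h : ∀ k, 8 / 9 ≤ μ.real (S k)) :
    ∃ T ∈ Finset.powersetCard 3 (Finset.univ : Finset (Fin 5)),
      2 / 135 ≤ μ.real {x | ∀ k ∈ T, x ∈ S k} := by
  classical
  by_contra hcon
  push Not at hcon
  have hQ : ∀ T : Finset (Fin 5), MeasurableSet {x | ∀ k ∈ T, x ∈ S k} := by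
    intro T
    have : {x | ∀ k ∈ T, x ∈ S k} = ⋂ k ∈ T, S k := by
      ext x; simp
    rw [this]
    exact Finset.measurableSet_biInter _ fun k _ => hS k
  have hpt : ∀ x, ∑ k, (S k).indicator (fun _ => (1:ℝ)) x ≤
      2 + 3 * ∑ T ∈ Finset.powersetCard 3 (Finset.univ : Finset (Fin 5)),
        ({x | ∀ k ∈ T, x ∈ S k} : Set E).indicator (fun _ => (1:ℝ)) x := by
    intro x
    have e1 : ∑ k, (S k).indicator (fun _ => (1:ℝ)) x =
        ((Finset.univ.filter fun k => x ∈ S k).card : ℝ) := by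
      rw [Finset.card_filter]
      push_cast
      refine Finset.sum_congr rfl fun k _ => ?_
      by_cases hk : x ∈ S k <;> simp [hk]
    have hnn : ∀ T ∈ Finset.powersetCard 3 (Finset.univ : Finset (Fin 5)),
        0 ≤ ({x | ∀ k ∈ T, x ∈ S k} : Set E).indicator (fun _ => (1:ℝ)) x := fun T _ =>
      indicator_nonneg (fun _ _ => zero_le_one) _
    rw [e1]
    rcases Nat.lt_or_ge (Finset.univ.filter fun k => x ∈ S k).card 3 with h3 | h3
    · have h4 : ((Finset.univ.filter fun k => x ∈ S k).card : ℝ) ≤ 2 := by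
        exact_mod_cast Nat.le_of_lt_succ h3
      have h5 := Finset.sum_nonneg hnn
      linarith
    · obtain ⟨T, hT1, hT2⟩ := Finset.exists_subset_card_eq h3
      have hTm : T ∈ Finset.powersetCard 3 (Finset.univ : Finset (Fin 5)) :=
        Finset.mem_powersetCard.2 ⟨Finset.subset_univ _, hT2⟩
      have h6 : (1:ℝ) ≤ ∑ T ∈ Finset.powersetCard 3 (Finset.univ : Finset (Fin 5)),
        ({x | ∀ k ∈ T, x ∈ S k} : Set E).indicator (fun _ => (1:ℝ)) x := by
        refine le_trans ?_ (Finset.single_le_sum hnn hTm)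
        rw [indicator_of_mem]
        intro k hk
        exact (Finset.mem_filter.1 (hT1 hk)).2
      have h7 : ((Finset.univ.filter fun k => x ∈ S k).card : ℝ) ≤ 5 := by
        have := Finset.card_filter_le (Finset.univ : Finset (Fin 5)) (fun k => x ∈ S k)
        rw [Finset.card_univ, Fintype.card_fin] at this
        exact_mod_cast this
      linarith
  have hi1 : ∀ k, Integrable ((S k).indicator (fun _ => (1:ℝ))) μ := fun k =>
    (integrable_const _).indicator (hS k)
  have hi2 : ∀ T : Finset (Fin 5), Integrable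
      (({x | ∀ k ∈ T, x ∈ S k} : Set E).indicator (fun _ => (1:ℝ))) μ := fun T =>
    (integrable_const _).indicator (hQ T)
  have hv : ∀ {D : Set E}, MeasurableSet D → ∫ t, D.indicator (fun _ => (1:ℝ)) t ∂μ = μ.real D :=
    fun hD => by rw [integral_indicator hD, setIntegral_const, smul_eq_mul, mul_one]
  have hi3 : Integrable (fun x => ∑ T ∈ Finset.powersetCard 3 (Finset.univ : Finset (Fin 5)),
        ({x | ∀ k ∈ T, x ∈ S k} : Set E).indicator (fun _ => (1:ℝ)) x) μ :=
    integrable_finset_sum _ fun T _ => hi2 T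
  have h1 := integral_mono (integrable_finset_sum Finset.univ fun k _ => hi1 k)
    ((integrable_const (2:ℝ)).add (hi3.const_mul 3)) hpt
  rw [integral_finsetSum _ fun k _ => hi1 k, integral_add' (integrable_const _) (hi3.const_mul 3),
    integral_const, hμ, integral_const_mul, integral_finsetSum _ fun T _ => hi2 T] at h1
  simp only [hv (hS _), hv (hQ _), smul_eq_mul] at h1
  have h3 : (5:ℝ) * (8 / 9) ≤ ∑ k, μ.real (S k) := by
    have := Finset.card_nsmul_le_sum (Finset.univ : Finset (Fin 5)) (fun k => μ.real (S k)) (8 / 9)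
      fun k _ => h k
    rw [Finset.card_univ, Fintype.card_fin, nsmul_eq_mul] at this
    exact_mod_cast this
  have h4 : ∑ T ∈ Finset.powersetCard 3 (Finset.univ : Finset (Fin 5)),
      μ.real {x | ∀ k ∈ T, x ∈ S k} < 10 * (2 / 135) := by
    have hne : (Finset.powersetCard 3 (Finset.univ : Finset (Fin 5))).Nonempty :=
      Finset.powersetCard_nonempty.2 (by simp)
    have h5 := Finset.sum_lt_sum_of_nonempty hne hcon
    refine h5.trans_eq ?_
    rw [Finset.sum_const, Finset.card_powersetCard, Finset.card_univ, Fintype.card_fin,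
      nsmul_eq_mul]
    norm_num [Nat.choose]
  linarith

/-- The choice of the direction. -/
theorem geo {ρ : E → ℝ} (h0 : ∀ x, 0 ≤ ρ x) (hi : Integrable ρ) (h2 : ∫ x, ρ x = 2)
    (hI : Integrable fun x => ρ x ^ (5 / 3 : ℝ)) :
    ∃ (c : Fin 3 → ℝ) (a w : ℝ), ∑ i, c i ^ 2 ≤ 14 ∧ 0 < w ∧
      ∫ x, ρ x * fA a w (ell c x) = 1 ∧ ∫ x, ρ x * fB a w (ell c x) = 0 ∧
      (w ^ 2)⁻¹ ≤ 72000000 * ∫ x, ρ x ^ (5 / 3 : ℝ) := by
  have hfin := mu_fin h0 hi h2
  choose a w hw h3 h4 h5 using fun k => dir h0 hi h2 (cc_ne k)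
  have hμ : (mu ρ).real univ = 2 := by
    rw [measureReal_def, mu_univ h0 hi h2, ENNReal.toReal_ofReal (by norm_num)]
  -- the largest width
  obtain ⟨k₀, -, hk₀⟩ := Finset.exists_max_image (Finset.univ : Finset (Fin 5)) w
    ⟨0, Finset.mem_univ _⟩
  set W := w k₀ with hWd
  have hW : 0 < W := hw k₀
  refine ⟨cc k₀, a k₀, w k₀, cc_sq k₀, hw k₀, h3 k₀, h4 k₀, ?_⟩
  rw [← hWd]
  set S : Fin 5 → Set E := fun k => {x | |ell (cc k) x - a k| ≤ 3 * W} with hSd
  have hSm : ∀ k, MeasurableSet (S k) := fun k =>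
    (isClosed_le (((ell_cont (cc k)).sub continuous_const).abs) continuous_const).measurableSet
  have hS8 : ∀ k, 8 / 9 ≤ (mu ρ).real (S k) := fun k => by
    refine (h5 k).trans (measureReal_mono fun x hx => ?_)
    have h6 : w k ≤ W := hk₀ k (Finset.mem_univ _)
    have h7 : |ell (cc k) x - a k| ≤ 3 * w k := hx
    change |ell (cc k) x - a k| ≤ 3 * W
    linarith
  obtain ⟨T, hT, hTm⟩ := pigeon hμ hSm hS8
  obtain ⟨k, l, n, hkl, hkn, hln, hTe⟩ := Finset.card_eq_three.1 (Finset.mem_powersetCard.1 hT).2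
  set Q : Set E := {x | ∀ k ∈ T, x ∈ S k} with hQd
  have hQm : MeasurableSet Q := by
    have : Q = ⋂ k ∈ T, S k := by ext x; simp [hQd]
    rw [this]
    exact Finset.measurableSet_biInter _ fun k _ => hSm k
  -- the diameter
  obtain ⟨x₀, hx₀⟩ : Q.Nonempty := by
    by_contra hne
    rw [not_nonempty_iff_eq_empty] at hne
    rw [hne, measureReal_empty] at hTm
    norm_num at hTm
  have hball : Q ⊆ Metric.closedBall x₀ (84 * W) := by
    intro x hx
    rw [Metric.mem_closedBall, dist_eq_norm]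
    have hk : ∀ j ∈ T, |ell (cc j) (x - x₀)| ≤ 6 * W := by
      intro j hj
      have i1 : |ell (cc j) x - a j| ≤ 3 * W := hx j hj
      have i2 : |ell (cc j) x₀ - a j| ≤ 3 * W := hx₀ j hj
      have i3 : ell (cc j) (x - x₀) = (ell (cc j) x - a j) - (ell (cc j) x₀ - a j) := by
        simp only [ell, PiLp.sub_apply]; ring
      rw [i3]
      refine (abs_sub _ _).trans ?_
      linarith
    have := tri hkl hkn hln (hk k (by rw [hTe]; simp)) (hk l (by rw [hTe]; simp))
      (hk n (by rw [hTe]; simp))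
    linarith
  -- the volume
  set R := 84 * W with hR
  have hR0 : 0 < R := by positivity
  have hvol : volume.real Q ≤ 5 * R ^ 3 := by
    refine (measureReal_mono hball (by
      rw [EuclideanSpace.volume_closedBall_fin_three]
      exact ENNReal.mul_ne_top (ENNReal.pow_ne_top ENNReal.ofReal_ne_top)
        ENNReal.ofReal_ne_top)).trans ?_
    rw [measureReal_def, EuclideanSpace.volume_closedBall_fin_three, ENNReal.toReal_mul,
      ENNReal.toReal_pow, ENNReal.toReal_ofReal hR0.le, ENNReal.toReal_ofReal (by positivity)]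
    have hpi : π * 4 / 3 ≤ 5 := by have := pi_lt_d2; linarith
    nlinarith [pow_pos hR0 3]
  have hvt : volume Q ≠ ⊤ := (lt_of_le_of_lt (measure_mono hball) (by
    rw [EuclideanSpace.volume_closedBall_fin_three]
    exact ENNReal.mul_lt_top (ENNReal.pow_lt_top ENNReal.ofReal_lt_top)
      ENNReal.ofReal_lt_top)).ne
  have hQρ : (mu ρ).real Q = ∫ x in Q, ρ x := by
    rw [measureReal_def, mu, withDensity_apply _ hQm,
      ← ofReal_integral_eq_lintegral_ofReal hi.integrableOn (Eventually.of_forall h0),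
      ENNReal.toReal_ofReal (integral_nonneg h0)]
  set κ : ℝ := (10 * R)⁻¹ with hκ
  have hκ0 : 0 < κ := by positivity
  have hc : IntegrableOn (fun _ : E => κ ^ 5) Q := integrableOn_const hvt
  have hmain : ∫ x in Q, κ ^ 2 * ρ x ≤ ∫ x in Q, (ρ x ^ (5 / 3 : ℝ) + κ ^ 5) :=
    setIntegral_mono (hi.integrableOn.const_mul _) (hI.integrableOn.add hc)
      fun x => young (h0 x) hκ0
  rw [integral_const_mul, ← hQρ, integral_add hI.integrableOn hc, setIntegral_const,
    smul_eq_mul] at hmain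
  have hIQ : ∫ x in Q, ρ x ^ (5 / 3 : ℝ) ≤ ∫ x, ρ x ^ (5 / 3 : ℝ) :=
    setIntegral_le_integral hI (Eventually.of_forall fun x => Real.rpow_nonneg (h0 x) _)
  set I := ∫ x, ρ x ^ (5 / 3 : ℝ)
  have j1 : κ ^ 2 * (2 / 135) ≤ κ ^ 2 * (mu ρ).real Q :=
    mul_le_mul_of_nonneg_left hTm (by positivity)
  have j2 : volume.real Q * κ ^ 5 ≤ 5 * R ^ 3 * κ ^ 5 :=
    mul_le_mul_of_nonneg_right hvol (by positivity)
  have j3 : 5 * R ^ 3 * κ ^ 5 = κ ^ 2 / 200 := by
    have : R * κ = 1 / 10 := by rw [hκ]; field_simp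
    have e : 5 * R ^ 3 * κ ^ 5 = 5 * (R * κ) ^ 3 * κ ^ 2 := by ring
    rw [e, this]; ring
  have j4 : κ ^ 2 = (W ^ 2)⁻¹ / 705600 := by
    rw [hκ, hR]; field_simp; norm_num
  have j5 : 0 ≤ (W ^ 2)⁻¹ := by positivity
  rw [j4] at j1 j3
  nlinarith

end Pool.Agent.TH199.MY
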