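import Pool.Agent.TH199.MY.Bal

set_option autoImplicit false
set_option linter.unusedSectionVars false
set_option linter.deprecated false

open MeasureTheory Set Filter Topology Real ProbabilityTheory
open scoped RealInnerProductSpace ENNReal

namespace Pool.Agent.TH199.MY.D

/-- Space. -/
abbrev V (d : ℕ) := EuclideanSpace ℝ (Fin d)

variable {d : ℕ}

lemma inner_null {c : V d} (hc : c ≠ 0) (t : ℝ) :
    volume ((fun x : V d => ⟪c, x⟫) ⁻¹' {t}) = 0 := by
  rcases ((fun x : V d => ⟪c, x⟫) ⁻¹' {t}).eq_empty_or_nonempty with h | ⟨x₀, hx₀⟩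
  · rw [h, measure_empty]
  · have hK : LinearMap.ker (innerₛₗ ℝ c) ≠ ⊤ := by
      intro h
      have h1 : c ∈ LinearMap.ker (innerₛₗ ℝ c) := by rw [h]; trivial
      have h2 : ⟪c, c⟫ = 0 := h1
      exact hc (inner_self_eq_zero.1 h2)
    have h1 := Measure.addHaar_affineSubspace (volume : Measure (V d))
      (AffineSubspace.mk' x₀ (LinearMap.ker (innerₛₗ ℝ c))) (by
        intro h
        apply hK
        have := congrArg AffineSubspace.direction h
        rwa [AffineSubspace.direction_mk', AffineSubspace.direction_top] at this)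
    refine measure_mono_null (fun x hx => ?_) h1
    rw [SetLike.mem_coe, AffineSubspace.mem_mk', LinearMap.mem_ker, vsub_eq_sub, map_sub, sub_eq_zero]
    have e1 : ⟪c, x⟫ = t := hx
    have e2 : ⟪c, x₀⟫ = t := hx₀
    change ⟪c, x⟫ = ⟪c, x₀⟫
    rw [e1, e2]

/-- The measure with density `ρ`. -/
noncomputable def mu (ρ : V d → ℝ) : Measure (V d) :=
  volume.withDensity fun x => ENNReal.ofReal (ρ x)

lemma mu_int {ρ : V d → ℝ} (hi : Integrable ρ) (f : V d → ℝ) (h0 : ∀ x, 0 ≤ ρ x) :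
    ∫ x, f x ∂(mu ρ) = ∫ x, ρ x * f x := by
  rw [mu, integral_withDensity_eq_integral_toReal_smul₀ hi.1.aemeasurable.ennreal_ofReal
    (Eventually.of_forall fun _ => ENNReal.ofReal_lt_top)]
  refine integral_congr_ae (Eventually.of_forall fun x => ?_)
  simp only [smul_eq_mul]
  rw [ENNReal.toReal_ofReal (h0 x)]

section

variable {ρ : V d → ℝ} (h0 : ∀ x, 0 ≤ ρ x) (hi : Integrable ρ) (h2 : ∫ x, ρ x = 2)
include h0 hi h2

lemma mu_univ : mu ρ univ = ENNReal.ofReal 2 := by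
  rw [mu, withDensity_apply _ MeasurableSet.univ, Measure.restrict_univ,
    ← ofReal_integral_eq_lintegral_ofReal hi (Eventually.of_forall h0), h2]

lemma mu_fin : IsFiniteMeasure (mu ρ) := ⟨by rw [mu_univ h0 hi h2]; exact ENNReal.ofReal_lt_top⟩

theorem dir {c : V d} (hc : c ≠ 0) :
    ∃ a w : ℝ, 0 < w ∧ ∫ x, ρ x * fA a w ⟪c, x⟫ = 1 ∧ ∫ x, ρ x * fB a w ⟪c, x⟫ = 0 ∧
      8 / 9 ≤ (mu ρ).real {x | |⟪c, x⟫ - a| ≤ 3 * w} := by
  have := mu_fin h0 hi h2
  have hcont : Continuous fun x : V d => ⟪c, x⟫ := by fun_prop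
  have hm : Measurable (fun x : V d => ⟪c, x⟫) := hcont.measurable
  have hr : ((mu ρ).map (fun x : V d => ⟪c, x⟫)).real univ = 2 := by
    rw [measureReal_def, Measure.map_apply hm MeasurableSet.univ, preimage_univ,
      mu_univ h0 hi h2, ENNReal.toReal_ofReal (by norm_num)]
  have hn : ∀ t, ((mu ρ).map (fun x : V d => ⟪c, x⟫)) {t} = 0 := by
    intro t
    rw [Measure.map_apply hm (measurableSet_singleton t)]
    exact withDensity_absolutelyContinuous _ _ (inner_null hc t)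
  obtain ⟨a, w, hw, h3, h4⟩ := balanced hn hr
  have h5 := slab hr hw h3
  have e : w = exp (log w) := (exp_log hw).symm
  have hfa : AEStronglyMeasurable (fA a w) ((mu ρ).map (fun x : V d => ⟪c, x⟫)) := by
    rw [e]; exact (fA_int _ _).1
  have hfb : AEStronglyMeasurable (fB a w) ((mu ρ).map (fun x : V d => ⟪c, x⟫)) := by
    rw [e]; exact (fB_int _ _).1
  refine ⟨a, w, hw, ?_, ?_, ?_⟩
  · rw [← mu_int hi _ h0, ← h3, integral_map hm.aemeasurable hfa]
  · rw [← mu_int hi _ h0, ← h4, integral_map hm.aemeasurable hfb]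
  · rw [measureReal_def, Measure.map_apply hm
      (isClosed_le (by fun_prop) (by fun_prop)).measurableSet] at h5
    exact h5

end

/-- Anti-concentration of the gaussian measure. -/
lemma gauss_slab {v : V d} (hv : v ≠ 0) {δ : ℝ} :
    stdGaussian (V d) {c | |⟪v, c⟫| ≤ δ} ≤ ENNReal.ofReal (4 / 5 * δ / ‖v‖) := by
  have hn : 0 < ‖v‖ := norm_pos_iff.2 hv
  have hmap : (stdGaussian (V d)).map (innerSL ℝ v) = gaussianReal 0 (‖v‖ ^ 2).toNNReal := by
    rw [IsGaussian.map_eq_gaussianReal, integral_strongDual_stdGaussian,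
      variance_dual_stdGaussian, innerSL_apply_norm]
  have hset : {c : V d | |⟪v, c⟫| ≤ δ} = (innerSL ℝ v) ⁻¹' (Icc (-δ) δ) := by
    ext c
    simp [abs_le]
  rw [hset, ← Measure.map_apply (by fun_prop) measurableSet_Icc, hmap,
    gaussianReal_apply 0 (by
      rw [Ne, Real.toNNReal_eq_zero, not_le]; positivity)]
  have hpt : ∀ x, gaussianPDF 0 (‖v‖ ^ 2).toNNReal x ≤ ENNReal.ofReal (2 / 5 / ‖v‖) := by
    intro x
    rw [gaussianPDF]
    refine ENNReal.ofReal_le_ofReal ?_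
    rw [gaussianPDFReal, Real.coe_toNNReal _ (by positivity)]
    have h1 : rexp (-(x - 0) ^ 2 / (2 * ‖v‖ ^ 2)) ≤ 1 := by
      rw [exp_le_one_iff]
      have : 0 ≤ (x - 0) ^ 2 / (2 * ‖v‖ ^ 2) := by positivity
      rw [neg_div]
      linarith
    have h2 : (√(2 * π * ‖v‖ ^ 2))⁻¹ ≤ 2 / 5 / ‖v‖ := by
      rw [div_div, inv_eq_one_div, div_le_div_iff₀ (by positivity) (by positivity), one_mul]
      have h3 : (5 / 2 * ‖v‖) ≤ √(2 * π * ‖v‖ ^ 2) := by
        refine Real.le_sqrt_of_sq_le ?_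
        have := pi_gt_d2
        nlinarith [sq_nonneg ‖v‖]
      linarith
    calc (√(2 * π * ‖v‖ ^ 2))⁻¹ * rexp (-(x - 0) ^ 2 / (2 * ‖v‖ ^ 2)) ≤ (2 / 5 / ‖v‖) * 1 :=
          mul_le_mul h2 h1 (exp_pos _).le (by positivity)
      _ = _ := mul_one _
  calc ∫⁻ x in Icc (-δ) δ, gaussianPDF 0 (‖v‖ ^ 2).toNNReal x
      ≤ ∫⁻ _x in Icc (-δ) δ, ENNReal.ofReal (2 / 5 / ‖v‖) := lintegral_mono fun x => hpt x
    _ = ENNReal.ofReal (2 / 5 / ‖v‖) * ENNReal.ofReal (δ - -δ) := by
        rw [setLIntegral_const, Real.volume_Icc]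
    _ = ENNReal.ofReal (4 / 5 * δ / ‖v‖) := by
        rw [← ENNReal.ofReal_mul (by positivity)]
        congr 1
        ring

lemma gauss_norm : ∫ c, ‖c‖ ^ 2 ∂(stdGaussian (V d)) = d := by
  have h1 : ∀ c : V d, ‖c‖ ^ 2 = ∑ i, (innerSL ℝ (EuclideanSpace.single i (1:ℝ)) c) ^ 2 := by
    intro c
    rw [EuclideanSpace.norm_sq_eq]
    refine Finset.sum_congr rfl fun i _ => ?_
    simp [EuclideanSpace.inner_single_left]
  have h2 : ∀ i : Fin d, ∫ c, (innerSL ℝ (EuclideanSpace.single i (1:ℝ)) c) ^ 2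
      ∂(stdGaussian (V d)) = 1 := by
    intro i
    rw [← variance_of_integral_eq_zero (by fun_prop) (integral_strongDual_stdGaussian _),
      variance_dual_stdGaussian, innerSL_apply_norm]
    simp
  have h3 : ∀ i : Fin d, Integrable
      (fun c => (innerSL ℝ (EuclideanSpace.single i (1:ℝ)) c) ^ 2) (stdGaussian (V d)) := by
    intro i
    have h4 : Integrable (fun c : V d => ‖c‖ ^ 2) (stdGaussian (V d)) :=
      (IsGaussian.memLp_two_id (μ := stdGaussian (V d))).integrable_norm_pow (by norm_num)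
    refine h4.mono' (by fun_prop) (Eventually.of_forall fun c => ?_)
    rw [Real.norm_eq_abs, abs_of_nonneg (sq_nonneg _), ← sq_abs]
    refine pow_le_pow_left₀ (abs_nonneg _) ?_ 2
    have := abs_real_inner_le_norm (EuclideanSpace.single i (1:ℝ) : V d) c
    simpa using this
  simp only [h1]
  rw [integral_finsetSum _ fun i _ => h3 i, Finset.sum_congr rfl fun i _ => h2 i]
  simp

lemma gauss_far (hd : 0 < d) :
    stdGaussian (V d) {c | 4 * √d < ‖c‖} ≤ ENNReal.ofReal (1 / 16) := by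
  have hd0 : (0:ℝ) < d := by exact_mod_cast hd
  have h4 : Integrable (fun c : V d => ‖c‖ ^ 2) (stdGaussian (V d)) :=
    (IsGaussian.memLp_two_id (μ := stdGaussian (V d))).integrable_norm_pow (by norm_num)
  have h5 := mul_meas_ge_le_integral_of_nonneg (Eventually.of_forall fun c => sq_nonneg ‖c‖) h4
    (16 * d)
  rw [gauss_norm] at h5
  have h6 : (stdGaussian (V d)).real {c | 4 * √d < ‖c‖} ≤ 1 / 16 := by
    have h7 : (stdGaussian (V d)).real {c | 4 * √d < ‖c‖} ≤
        (stdGaussian (V d)).real {c : V d | 16 * d ≤ ‖c‖ ^ 2} := by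
      refine measureReal_mono fun c hc => ?_
      have h8 : 4 * √d < ‖c‖ := hc
      change 16 * (d:ℝ) ≤ ‖c‖ ^ 2
      have h9 := pow_le_pow_left₀ (by positivity) h8.le 2
      rw [mul_pow, Real.sq_sqrt hd0.le] at h9
      linarith
    nlinarith
  rw [← ENNReal.ofReal_toReal (measure_ne_top (stdGaussian (V d)) _)]
  exact ENNReal.ofReal_le_ofReal h6

end Pool.Agent.TH199.MY.D
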