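import Pool.Agent.TH199.MY.GeoD

set_option autoImplicit false
set_option linter.unusedSectionVars false
set_option linter.deprecated false

open MeasureTheory Set Filter Topology Real ProbabilityTheory
open scoped RealInnerProductSpace ENNReal

namespace Pool.Agent.TH199.MY.D

variable {d : ℕ}

/-- If the measure is concentrated near hyperplanes in all directions, it is concentrated in
a ball. -/
theorem conc (hd : 0 < d) {μ : Measure (V d)} [IsFiniteMeasure μ] (hμ : μ univ = ENNReal.ofReal 2)
    {w₀ : ℝ} (hw₀ : 0 < w₀)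
    (h : ∀ c : V d, c ≠ 0 → ∃ a w : ℝ, w ≤ ‖c‖ * w₀ ∧ 8 / 9 ≤ μ.real {x | |⟪c, x⟫ - a| ≤ 3 * w}) :
    ∃ x, 17 / 100 ≤ μ.real (Metric.closedBall x (400 * w₀ * √d)) := by
  by_contra hcon
  push Not at hcon
  have hd0 : (0:ℝ) < d := by exact_mod_cast hd
  have hsd : 0 < √(d:ℝ) := Real.sqrt_pos.2 hd0
  set R := 400 * w₀ * √d with hR
  have hR0 : 0 < R := by positivity
  set γ := stdGaussian (V d) with hγ
  set A : Set (V d × (V d × V d)) := {p | |⟪p.1, p.2.1 - p.2.2⟫| ≤ 6 * w₀ * ‖p.1‖} with hA
  have hAm : MeasurableSet A := by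
    refine (isClosed_le ?_ ?_).measurableSet
    · fun_prop
    · fun_prop
  -- the lower bound
  have low : ENNReal.ofReal (64 / 81) ≤ (γ.prod (μ.prod μ)) A := by
    rw [Measure.prod_apply hAm]
    have hc : ∀ c : V d, ENNReal.ofReal (64 / 81) ≤ (μ.prod μ) (Prod.mk c ⁻¹' A) := by
      intro c
      by_cases hc : c = 0
      · have e : Prod.mk c ⁻¹' A = univ := by
          ext p
          simp [hA, hc]
        rw [e, ← univ_prod_univ, Measure.prod_prod, hμ, ← ENNReal.ofReal_mul (by norm_num)]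
        exact ENNReal.ofReal_le_ofReal (by norm_num)
      · obtain ⟨a, w, hw, hS⟩ := h c hc
        set S : Set (V d) := {x | |⟪c, x⟫ - a| ≤ 3 * w} with hSd
        have hsub : S ×ˢ S ⊆ Prod.mk c ⁻¹' A := by
          rintro ⟨x, y⟩ ⟨hx, hy⟩
          have hx' : |⟪c, x⟫ - a| ≤ 3 * w := hx
          have hy' : |⟪c, y⟫ - a| ≤ 3 * w := hy
          change |⟪c, x - y⟫| ≤ 6 * w₀ * ‖c‖
          rw [inner_sub_right]
          have e : ⟪c, x⟫ - ⟪c, y⟫ = (⟪c, x⟫ - a) - (⟪c, y⟫ - a) := by ring
          rw [e]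
          refine (abs_sub _ _).trans ?_
          linarith
        refine le_trans ?_ (measure_mono hsub)
        rw [Measure.prod_prod]
        have h8 : ENNReal.ofReal (8 / 9) ≤ μ S := by
          rw [← ENNReal.ofReal_toReal (measure_ne_top μ S)]
          exact ENNReal.ofReal_le_ofReal hS
        calc ENNReal.ofReal (64 / 81) = ENNReal.ofReal (8 / 9) * ENNReal.ofReal (8 / 9) := by
              rw [← ENNReal.ofReal_mul (by norm_num)]; norm_num
          _ ≤ μ S * μ S := mul_le_mul' h8 h8
    calc ENNReal.ofReal (64 / 81) = ∫⁻ _c, ENNReal.ofReal (64 / 81) ∂γ := by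
          rw [lintegral_const, measure_univ, mul_one]
      _ ≤ _ := lintegral_mono hc
  -- the upper bound
  set B : Set (V d × V d) := {p | ‖p.1 - p.2‖ ≤ R} with hB
  have hBm : MeasurableSet B := (isClosed_le (by fun_prop) (by fun_prop)).measurableSet
  have up1 : ∀ p : V d × V d, γ ((fun c => (c, p)) ⁻¹' A) ≤
      B.indicator (fun _ => 1) p + ENNReal.ofReal (221 / 2000) := by
    intro p
    by_cases hp : p ∈ B
    · rw [indicator_of_mem hp]
      exact prob_le_one.trans le_self_add
    · rw [indicator_of_notMem hp, zero_add]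
      have hp' : R < ‖p.1 - p.2‖ := not_le.1 hp
      set v := p.1 - p.2 with hv
      have hv0 : v ≠ 0 := by
        intro h0
        rw [h0, norm_zero] at hp'
        linarith
      have hsub : (fun c => (c, p)) ⁻¹' A ⊆ {c | 4 * √d < ‖c‖} ∪ {c | |⟪v, c⟫| ≤ 24 * w₀ * √d} := by
        intro c hc
        have hc' : |⟪c, v⟫| ≤ 6 * w₀ * ‖c‖ := hc
        by_cases h4 : 4 * √d < ‖c‖
        · exact Or.inl h4
        · right
          push Not at h4
          change |⟪v, c⟫| ≤ 24 * w₀ * √d
          rw [real_inner_comm]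
          nlinarith
      refine (measure_mono hsub).trans ((measure_union_le _ _).trans ?_)
      refine (add_le_add (gauss_far hd) (gauss_slab hv0)).trans ?_
      rw [← ENNReal.ofReal_add (by norm_num) (by positivity)]
      refine ENNReal.ofReal_le_ofReal ?_
      have h5 : 4 / 5 * (24 * w₀ * √d) / ‖v‖ ≤ 48 / 1000 := by
        rw [div_le_iff₀ (by linarith)]
        have : 48 / 1000 * R ≤ 48 / 1000 * ‖v‖ := by linarith
        rw [hR] at this
        linarith
      linarith
  have up2 : (γ.prod (μ.prod μ)) A ≤ (μ.prod μ) B + ENNReal.ofReal (221 / 2000) * ENNReal.ofReal 4 := by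
    rw [Measure.prod_apply_symm hAm]
    refine (lintegral_mono up1).trans ?_
    rw [lintegral_add_right _ measurable_const, lintegral_indicator hBm, lintegral_const,
      lintegral_const, one_mul, Measure.restrict_apply MeasurableSet.univ, univ_inter,
      ← univ_prod_univ, Measure.prod_prod, hμ, ← ENNReal.ofReal_mul (by norm_num)]
    norm_num
  have up3 : (μ.prod μ) B ≤ ENNReal.ofReal (17 / 100) * ENNReal.ofReal 2 := by
    rw [Measure.prod_apply hBm]
    calc ∫⁻ x, μ (Prod.mk x ⁻¹' B) ∂μ ≤ ∫⁻ _x, ENNReal.ofReal (17 / 100) ∂μ := by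
          refine lintegral_mono fun x => ?_
          have e : Prod.mk x ⁻¹' B ⊆ Metric.closedBall x R := by
            intro y hy
            have : ‖x - y‖ ≤ R := hy
            rw [Metric.mem_closedBall, dist_comm, dist_eq_norm]
            exact this
          refine (measure_mono e).trans ?_
          rw [← ENNReal.ofReal_toReal (measure_ne_top μ (Metric.closedBall x R))]
          exact ENNReal.ofReal_le_ofReal (hcon x).le
      _ = _ := by rw [lintegral_const, hμ]
  have h1 := low.trans (up2.trans (add_le_add up3 le_rfl))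
  rw [← ENNReal.ofReal_mul (by norm_num), ← ENNReal.ofReal_mul (by norm_num),
    ← ENNReal.ofReal_add (by norm_num) (by norm_num), ENNReal.ofReal_le_ofReal_iff (by norm_num)]
    at h1
  norm_num at h1

/-- The volume of balls. -/
lemma vol_ball (hd : 0 < d) (x : V d) {R : ℝ} (hR : 0 < R) :
    volume.real (Metric.closedBall x R) ≤ (√(2 * π * exp 1 / d) * R) ^ d := by
  have hd0 : (0:ℝ) < d := by exact_mod_cast hd
  have hpi := pi_pos
  have e1 := exp_pos 1
  have hc : volume.real (Metric.closedBall x R) = volume.real (Metric.closedBall (0 : V d) R) := by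
    rw [measureReal_def, measureReal_def, Measure.addHaar_closedBall_center]
  rw [hc]
  set b : ℝ := d / (2 * R ^ 2) with hb
  have hb0 : 0 < b := by positivity
  have hG := GaussianFourier.integral_rexp_neg_mul_sq_norm (V := V d) hb0
  have hGi : Integrable (fun v : V d => rexp (-b * ‖v‖ ^ 2)) := by
    by_contra hni
    rw [integral_undef hni] at hG
    have : 0 < (π / b) ^ ((Module.finrank ℝ (V d) : ℝ) / 2) := by positivity
    linarith
  have h1 : volume.real (Metric.closedBall (0 : V d) R) * rexp (-(d / 2)) ≤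
      ∫ v : V d, rexp (-b * ‖v‖ ^ 2) := by
    rw [← smul_eq_mul, ← setIntegral_const]
    refine (setIntegral_mono_on ?_ hGi.integrableOn measurableSet_closedBall
      fun v hv => ?_).trans (setIntegral_le_integral hGi (Eventually.of_forall fun v =>
        (exp_pos _).le))
    · exact integrableOn_const (measure_closedBall_lt_top).ne
    · refine exp_le_exp.2 ?_
      have h2 : ‖v‖ ≤ R := by simpa using hv
      have h3 : ‖v‖ ^ 2 ≤ R ^ 2 := pow_le_pow_left₀ (norm_nonneg _) h2 2
      have h4 : b * ‖v‖ ^ 2 ≤ b * R ^ 2 := mul_le_mul_of_nonneg_left h3 hb0.le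
      have h5 : b * R ^ 2 = d / 2 := by rw [hb]; field_simp
      linarith
  rw [hG, finrank_euclideanSpace, Fintype.card_fin] at h1
  have h2 : volume.real (Metric.closedBall (0 : V d) R) ≤
      (π / b) ^ ((d:ℝ) / 2) * rexp (d / 2) := by
    have h3 : rexp (-(d / 2)) * rexp (d / 2) = 1 := by rw [← exp_add]; simp
    have h4 := mul_le_mul_of_nonneg_right h1 (exp_pos ((d:ℝ) / 2)).le
    rwa [mul_assoc, h3, mul_one] at h4
  refine h2.trans (le_of_eq ?_)
  have h3 : rexp (d / 2) = (exp 1) ^ ((d:ℝ) / 2) := by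
    rw [← Real.exp_mul, one_mul]
  have h4 : (√(2 * π * exp 1 / d) * R) ^ d = ((√(2 * π * exp 1 / d) * R) ^ 2) ^ ((d:ℝ) / 2) := by
    rw [← Real.rpow_natCast, ← Real.rpow_natCast, ← Real.rpow_mul (by positivity)]
    congr 1
    push_cast
    ring
  rw [h3, ← Real.mul_rpow (by positivity) e1.le, h4, mul_pow, Real.sq_sqrt (by positivity), hb]
  congr 1
  field_simp

lemma young {r κ : ℝ} (hd : 0 < d) (hr : 0 ≤ r) (hκ : 0 < κ) :
    κ ^ 2 * r ≤ r ^ (1 + 2 / (d:ℝ)) + κ ^ 2 * κ ^ d := by
  have hd0 : (0:ℝ) < d := by exact_mod_cast hd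
  rcases le_total r (κ ^ d) with h | h
  · have h1 : κ ^ 2 * r ≤ κ ^ 2 * κ ^ d := mul_le_mul_of_nonneg_left h (by positivity)
    have h2 : 0 ≤ r ^ (1 + 2 / (d:ℝ)) := by positivity
    linarith
  · have hr0 : 0 < r := lt_of_lt_of_le (by positivity) h
    have h1 : κ ^ 2 ≤ r ^ (2 / (d:ℝ)) := by
      have h2 : κ ^ 2 = (κ ^ d) ^ (2 / (d:ℝ)) := by
        rw [← Real.rpow_natCast κ d, ← Real.rpow_mul hκ.le, ← Real.rpow_natCast]
        congr 1
        push_cast
        field_simp
      rw [h2]
      exact Real.rpow_le_rpow (by positivity) h (by positivity)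
    have h3 : κ ^ 2 * r ≤ r ^ (2 / (d:ℝ)) * r := mul_le_mul_of_nonneg_right h1 hr
    have h4 : r ^ (1 + 2 / (d:ℝ)) = r ^ (2 / (d:ℝ)) * r := by
      rw [Real.rpow_add hr0, Real.rpow_one]; ring
    have h5 : 0 ≤ κ ^ 2 * κ ^ d := by positivity
    linarith

end Pool.Agent.TH199.MY.D
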