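import Pool.Agent.TH199.MY.GeoD2

set_option autoImplicit false
set_option linter.unusedSectionVars false
set_option linter.deprecated false

open MeasureTheory Set Filter Topology Real ProbabilityTheory
open scoped RealInnerProductSpace ENNReal

namespace Pool.Agent.TH199.MY.D

variable {d : ℕ}

/-- The semiclassical constant. -/
noncomputable def Kcl (d : ℕ) : ℝ :=
  4 * π ^ 2 * d / (d + 2) * (volume.real (Metric.ball (0 : V d) 1)) ^ (-(2 / (d:ℝ)))

lemma Kcl_ge (hd : 0 < d) : 2 * π * d ^ 2 / (exp 1 * (d + 2)) ≤ Kcl d := by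
  have hd0 : (0:ℝ) < d := by exact_mod_cast hd
  have hpi := pi_pos
  have he := exp_pos 1
  have h1 : volume.real (Metric.ball (0 : V d) 1) ≤ √(2 * π * exp 1 / d) ^ d := by
    have h2 := vol_ball hd (0 : V d) one_pos
    rw [mul_one] at h2
    exact (measureReal_mono Metric.ball_subset_closedBall
      (measure_closedBall_lt_top).ne).trans h2
  have h0 : 0 < volume.real (Metric.ball (0 : V d) 1) := by
    rw [measureReal_def]
    exact ENNReal.toReal_pos (Metric.measure_ball_pos _ _ one_pos).ne' measure_ball_lt_top.ne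
  have h3 := Real.rpow_le_rpow_of_nonpos h0 h1 (z := -(2 / (d:ℝ)))
    (by have : 0 ≤ 2 / (d:ℝ) := by positivity
        linarith)
  have hb : 0 < √(2 * π * exp 1 / d) := Real.sqrt_pos.2 (by positivity)
  have h4 : (√(2 * π * exp 1 / d) ^ d) ^ (-(2 / (d:ℝ))) = d / (2 * π * exp 1) := by
    rw [← Real.rpow_natCast (√(2 * π * exp 1 / d)) d, ← Real.rpow_mul hb.le]
    have e : (d:ℝ) * -(2 / (d:ℝ)) = -2 := by field_simp
    rw [e, Real.rpow_neg hb.le]
    have e2 : √(2 * π * exp 1 / d) ^ (2:ℝ) = 2 * π * exp 1 / d := by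
      rw [Real.rpow_two, Real.sq_sqrt (by positivity)]
    rw [e2, inv_div]
  rw [h4] at h3
  rw [Kcl]
  have h5 : 2 * π * d ^ 2 / (exp 1 * (d + 2)) =
      4 * π ^ 2 * d / (d + 2) * (d / (2 * π * exp 1)) := by
    field_simp
    ring
  rw [h5]
  exact mul_le_mul_of_nonneg_left h3 (by positivity)

/-- The choice of the direction, in high dimension. -/
theorem geoD (hd : 10 ^ 7 ≤ d) {ρ : V d → ℝ} (h0 : ∀ x, 0 ≤ ρ x) (hi : Integrable ρ)
    (h2 : ∫ x, ρ x = 2) (hI : Integrable fun x => ρ x ^ (1 + 2 / (d:ℝ))) :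
    ∃ (c : V d) (a w : ℝ), 0 < w ∧ ∫ x, ρ x * fA a w ⟪c, x⟫ = 1 ∧
      ∫ x, ρ x * fB a w ⟪c, x⟫ = 0 ∧
      ‖c‖ ^ 2 * (w ^ 2)⁻¹ ≤ Kcl d * ∫ x, ρ x ^ (1 + 2 / (d:ℝ)) := by
  have hd1 : 0 < d := by omega
  have hd0 : (0:ℝ) < d := by exact_mod_cast hd1
  have hdd : (10:ℝ) ^ 7 ≤ d := by exact_mod_cast hd
  have hpi := pi_pos
  have he := exp_pos 1
  have hKl := Kcl_ge hd1
  have hK0 : 0 < Kcl d := lt_of_lt_of_le (by positivity) hKl
  set I := ∫ x, ρ x ^ (1 + 2 / (d:ℝ)) with hId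
  have hI0 : 0 < I := by
    refine lt_of_le_of_ne (integral_nonneg fun x => Real.rpow_nonneg (h0 x) _) fun hne => ?_
    rw [hId, eq_comm, integral_eq_zero_iff_of_nonneg (fun x => Real.rpow_nonneg (h0 x) _) hI] at hne
    have h3 : ρ =ᵐ[volume] 0 := by
      filter_upwards [hne] with x hx
      have h4 : ρ x ^ (1 + 2 / (d:ℝ)) = 0 := hx
      exact ((Real.rpow_eq_zero_iff_of_nonneg (h0 x)).1 h4).1
    rw [integral_congr_ae h3] at h2
    simp at h2
  set Λ := Kcl d * I with hΛ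
  have hΛ0 : 0 < Λ := mul_pos hK0 hI0
  by_contra hcon
  push Not at hcon
  have hfin := mu_fin h0 hi h2
  set w₀ : ℝ := (√Λ)⁻¹ with hw₀
  have hsΛ : 0 < √Λ := Real.sqrt_pos.2 hΛ0
  have hw₀0 : 0 < w₀ := by positivity
  obtain ⟨x₀, hx₀⟩ := conc hd1 (mu_univ h0 hi h2) hw₀0 (fun c hc => by
    obtain ⟨a, w, hw, h3, h4, h5⟩ := dir h0 hi h2 hc
    refine ⟨a, w, ?_, h5⟩
    have h6 := hcon c a w hw h3 h4
    have h7 : Λ * w ^ 2 < ‖c‖ ^ 2 := by
      rw [← div_eq_mul_inv, lt_div_iff₀ (by positivity)] at h6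
      exact h6
    have h8 : (√Λ * w) ^ 2 ≤ ‖c‖ ^ 2 := by
      rw [mul_pow, Real.sq_sqrt hΛ0.le]; exact h7.le
    have h9 := abs_le_of_sq_le_sq h8 (norm_nonneg c)
    rw [abs_of_pos (by positivity)] at h9
    rw [hw₀, ← div_eq_mul_inv, le_div_iff₀ hsΛ]
    linarith)
  set R := 400 * w₀ * √d with hR
  have hsd : 0 < √(d:ℝ) := Real.sqrt_pos.2 hd0
  have hR0 : 0 < R := by positivity
  set Q := Metric.closedBall x₀ R with hQ
  have hQm : MeasurableSet Q := measurableSet_closedBall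
  have hQρ : (mu ρ).real Q = ∫ x in Q, ρ x := by
    rw [measureReal_def, mu, withDensity_apply _ hQm,
      ← ofReal_integral_eq_lintegral_ofReal hi.integrableOn (Eventually.of_forall h0),
      ENNReal.toReal_ofReal (integral_nonneg h0)]
  set b := √(2 * π * exp 1 / d) with hb
  have hb0 : 0 < b := Real.sqrt_pos.2 (by positivity)
  have hvol : volume.real Q ≤ (b * R) ^ d := vol_ball hd1 x₀ hR0
  set κ : ℝ := 9 / 10 / (b * R) with hκ
  have hκ0 : 0 < κ := by positivity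
  have hc : IntegrableOn (fun _ : V d => κ ^ 2 * κ ^ d) Q :=
    integrableOn_const (measure_closedBall_lt_top).ne
  have hmain : ∫ x in Q, κ ^ 2 * ρ x ≤ ∫ x in Q, (ρ x ^ (1 + 2 / (d:ℝ)) + κ ^ 2 * κ ^ d) :=
    setIntegral_mono (hi.integrableOn.const_mul _) (hI.integrableOn.add hc)
      fun x => young hd1 (h0 x) hκ0
  rw [integral_const_mul, ← hQρ, integral_add hI.integrableOn hc, setIntegral_const,
    smul_eq_mul] at hmain
  have hIQ : ∫ x in Q, ρ x ^ (1 + 2 / (d:ℝ)) ≤ I :=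
    setIntegral_le_integral hI (Eventually.of_forall fun x => Real.rpow_nonneg (h0 x) _)
  have j1 : κ ^ 2 * (17 / 100) ≤ κ ^ 2 * (mu ρ).real Q :=
    mul_le_mul_of_nonneg_left hx₀ (by positivity)
  have j2 : volume.real Q * (κ ^ 2 * κ ^ d) ≤ κ ^ 2 * (1 / 1000) := by
    have k1 : volume.real Q * (κ ^ 2 * κ ^ d) ≤ (b * R) ^ d * (κ ^ 2 * κ ^ d) :=
      mul_le_mul_of_nonneg_right hvol (by positivity)
    have k2 : (b * R) ^ d * (κ ^ 2 * κ ^ d) = κ ^ 2 * (9 / 10 : ℝ) ^ d := by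
      have e : b * R * κ = 9 / 10 := by rw [hκ]; field_simp
      rw [← e, mul_pow (b * R) κ]
      ring
    have k3 : (9 / 10 : ℝ) ^ d ≤ (9 / 10 : ℝ) ^ 100 :=
      pow_le_pow_of_le_one (by norm_num) (by norm_num) (by omega)
    have k4 : (9 / 10 : ℝ) ^ 100 ≤ 1 / 1000 := by norm_num
    rw [k2] at k1
    exact k1.trans (mul_le_mul_of_nonneg_left (k3.trans k4) (by positivity))
  have j3 : κ ^ 2 * (169 / 1000) ≤ I := by linarith
  have j4 : κ ^ 2 = 81 / 100 * Λ / (320000 * (π * exp 1)) := by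
    have e1 : (b * R) ^ 2 = 320000 * (π * exp 1) / Λ := by
      rw [hR, hb, hw₀, mul_pow, mul_pow, mul_pow, inv_pow, Real.sq_sqrt (by positivity),
        Real.sq_sqrt hΛ0.le, Real.sq_sqrt hd0.le]
      field_simp
      norm_num
    rw [hκ, div_pow, e1]
    field_simp
    norm_num
  rw [j4] at j3
  have j5 : Kcl d * (81 / 100 * Λ / (320000 * (π * exp 1)) * (169 / 1000)) ≤ Λ :=
    mul_le_mul_of_nonneg_left j3 hK0.le
  have j6 : 2 * π * d ^ 2 / (exp 1 * (d + 2)) *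
      (81 / 100 * Λ / (320000 * (π * exp 1)) * (169 / 1000)) ≤ Λ :=
    (mul_le_mul_of_nonneg_right hKl (by positivity)).trans j5
  have j7 : 2 * π * d ^ 2 / (exp 1 * (d + 2)) *
      (81 / 100 * Λ / (320000 * (π * exp 1)) * (169 / 1000)) =
      Λ * (13689 / 100000 * d ^ 2 / (160000 * (exp 1 ^ 2 * (d + 2)))) := by
    field_simp
    norm_num
  rw [j7] at j6
  have j8 : 13689 / 100000 * (d:ℝ) ^ 2 / (160000 * (exp 1 ^ 2 * (d + 2))) ≤ 1 := by
    by_contra hlt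
    push Not at hlt
    have := mul_lt_mul_of_pos_left hlt hΛ0
    linarith
  rw [div_le_one (by positivity)] at j8
  have he1 : exp 1 < 2.7182818286 := exp_one_lt_d9
  have he2 : exp 1 ^ 2 ≤ 7.39 := by nlinarith
  have j9 : 160000 * (exp 1 ^ 2 * ((d:ℝ) + 2)) ≤ 160000 * (7.39 * (d + 2)) := by
    have : exp 1 ^ 2 * ((d:ℝ) + 2) ≤ 7.39 * (d + 2) :=
      mul_le_mul_of_nonneg_right he2 (by positivity)
    linarith
  have j10 : 13689 / 100000 * (d:ℝ) ^ 2 ≤ 160000 * (7.39 * (d + 2)) := j8.trans j9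
  nlinarith

end Pool.Agent.TH199.MY.D
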