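import Pool.Agent.TH199.MY.Geo2

set_option autoImplicit false
set_option linter.unusedSectionVars false
set_option linter.deprecated false

open MeasureTheory Set Filter Topology Real
open scoped ContDiff

namespace Pool.Agent.TH199.MY

/-- The partial derivative. -/
noncomputable def pd (i : Fin 3) (η : E → ℝ) (x : E) : ℝ :=
  fderiv ℝ η x (EuclideanSpace.single i 1)

lemma pd_cont {η : E → ℝ} (h : ContDiff ℝ ∞ η) (i : Fin 3) : Continuous (pd i η) := by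
  unfold pd
  exact (h.continuous_fderiv (by simp)).clm_apply continuous_const

lemma pd_supp {η : E → ℝ} (h : HasCompactSupport η) (i : Fin 3) : HasCompactSupport (pd i η) := by
  have h1 := h.fderiv (𝕜 := ℝ)
  exact h1.comp_left (g := fun L : E →L[ℝ] ℝ => L (EuclideanSpace.single i 1)) rfl

lemma pd_mul {b η : E → ℝ} (hb : ContDiff ℝ ∞ b) (hη : ContDiff ℝ ∞ η) (i : Fin 3) (x : E) :
    pd i (fun x => b x * η x) x = b x * pd i η x + η x * pd i b x := by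
  unfold pd
  have h1 : DifferentiableAt ℝ b x := (hb.differentiable (by simp)) x
  have h2 : DifferentiableAt ℝ η x := (hη.differentiable (by simp)) x
  rw [fderiv_fun_mul h1 h2]
  simp [smul_eq_mul]

lemma memLp_ofReal {f : E → ℝ} (hc : Continuous f) (hs : HasCompactSupport f) :
    MemLp (fun x => ((f x : ℝ) : ℂ)) 2 :=
  (hc.memLp_of_hasCompactSupport hs).ofReal

/-- The product rule for weak derivatives. -/
lemma prod_weak {f : E → ℂ} {g : Fin 3 → E → ℂ} (hf : MemLp f 2) (hg : ∀ i, MemLp (g i) 2)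
    (hw : ∀ η : E → ℝ, ContDiff ℝ ∞ η → HasCompactSupport η → ∀ i,
      ∫ x, f x * ((pd i η x : ℝ) : ℂ) = -∫ x, g i x * ((η x : ℝ) : ℂ))
    {b : E → ℝ} (hb : ContDiff ℝ ∞ b) {η : E → ℝ} (hη : ContDiff ℝ ∞ η)
    (hs : HasCompactSupport η) (i : Fin 3) :
    ∫ x, f x * ((b x : ℝ) : ℂ) * ((pd i η x : ℝ) : ℂ) =
      -∫ x, (g i x * ((b x : ℝ) : ℂ) + f x * ((pd i b x : ℝ) : ℂ)) * ((η x : ℝ) : ℂ) := by
  have hbη : ContDiff ℝ ∞ (fun x => b x * η x) := hb.mul hη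
  have hbs : HasCompactSupport (fun x => b x * η x) := hs.mul_left
  have h1 := hw _ hbη hbs i
  have c1 : MemLp (fun x => ((pd i (fun x => b x * η x) x : ℝ) : ℂ)) 2 :=
    memLp_ofReal (pd_cont hbη i) (pd_supp hbs i)
  have c2 : MemLp (fun x => ((η x * pd i b x : ℝ) : ℂ)) 2 :=
    memLp_ofReal (hη.continuous.mul (pd_cont hb i)) hs.mul_right
  have c3 : MemLp (fun x => ((b x * η x : ℝ) : ℂ)) 2 := memLp_ofReal hbη.continuous hbs
  have i1 : Integrable (fun x => f x * ((pd i (fun x => b x * η x) x : ℝ) : ℂ)) :=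
    hf.integrable_mul c1
  have i2 : Integrable (fun x => f x * ((η x * pd i b x : ℝ) : ℂ)) := hf.integrable_mul c2
  have i3 : Integrable (fun x => g i x * ((b x * η x : ℝ) : ℂ)) := (hg i).integrable_mul c3
  have e1 : ∀ x, f x * ((b x : ℝ) : ℂ) * ((pd i η x : ℝ) : ℂ) =
      f x * ((pd i (fun x => b x * η x) x : ℝ) : ℂ) - f x * ((η x * pd i b x : ℝ) : ℂ) := by
    intro x
    rw [pd_mul hb hη]
    push_cast
    ring
  have e2 : ∀ x, (g i x * ((b x : ℝ) : ℂ) + f x * ((pd i b x : ℝ) : ℂ)) * ((η x : ℝ) : ℂ) =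
      g i x * ((b x * η x : ℝ) : ℂ) + f x * ((η x * pd i b x : ℝ) : ℂ) := by
    intro x
    push_cast
    ring
  simp only [e1, e2]
  rw [integral_sub i1 i2, integral_add i3 i2, h1]
  ring

/-- Functions of the linear functional. -/
lemma comp_contDiff {h : ℝ → ℝ} (hh : ContDiff ℝ ∞ h) (c : Fin 3 → ℝ) :
    ContDiff ℝ ∞ (fun x : E => h (ell c x)) := by
  refine hh.comp ?_
  unfold ell
  fun_prop

lemma comp_pd {h h' : ℝ → ℝ} (hd : ∀ t, HasDerivAt h (h' t) t) (c : Fin 3 → ℝ) (i : Fin 3)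
    (x : E) : pd i (fun x : E => h (ell c x)) x = h' (ell c x) * c i := by
  unfold pd
  have h1 : HasFDerivAt (ell c) (LinearMap.toContinuousLinearMap (ellL c)) x :=
    (LinearMap.toContinuousLinearMap (ellL c)).hasFDerivAt
  have h2 := (hd (ell c x)).comp_hasFDerivAt x h1
  have h3 := h2.fderiv
  change fderiv ℝ (h ∘ ell c) x (EuclideanSpace.single i 1) = _
  rw [h3]
  have h4 : ell c (EuclideanSpace.single i 1) = c i := by
    fin_cases i <;> simp [ell]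
  simp only [ContinuousLinearMap.smul_apply, smul_eq_mul, LinearMap.coe_toContinuousLinearMap']
  change _ * ell c (EuclideanSpace.single i 1) = _
  rw [h4]

/-- The two profiles. -/
noncomputable def p1 (a w t : ℝ) : ℝ := (t - a) / √((t - a) ^ 2 + w ^ 2)
noncomputable def p2 (a w t : ℝ) : ℝ := w / √((t - a) ^ 2 + w ^ 2)
noncomputable def q1 (a w t : ℝ) : ℝ := w ^ 2 / (√((t - a) ^ 2 + w ^ 2)) ^ 3
noncomputable def q2 (a w t : ℝ) : ℝ := -(w * (t - a)) / (√((t - a) ^ 2 + w ^ 2)) ^ 3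

variable {a w : ℝ} (hw : 0 < w)
include hw

lemma r_deriv (t : ℝ) : HasDerivAt (fun t => √((t - a) ^ 2 + w ^ 2))
    ((t - a) / √((t - a) ^ 2 + w ^ 2)) t := by
  have h1 : HasDerivAt (fun t => (t - a) ^ 2 + w ^ 2) (2 * (t - a)) t := by
    refine ((((hasDerivAt_id t).sub_const a).pow 2).add_const _).congr_deriv ?_
    simp
  refine (h1.sqrt (den_pos a t hw).ne').congr_deriv ?_
  have : 0 < √((t - a) ^ 2 + w ^ 2) := Real.sqrt_pos.2 (den_pos a t hw)
  field_simp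

lemma p1_deriv (t : ℝ) : HasDerivAt (p1 a w) (q1 a w t) t := by
  have hr : 0 < √((t - a) ^ 2 + w ^ 2) := Real.sqrt_pos.2 (den_pos a t hw)
  have hs : √((t - a) ^ 2 + w ^ 2) ^ 2 = (t - a) ^ 2 + w ^ 2 := Real.sq_sqrt (den_pos a t hw).le
  refine (((hasDerivAt_id t).sub_const a).div (r_deriv hw t) hr.ne').congr_deriv ?_
  rw [q1]
  field_simp
  simp only [id]
  rw [hs]
  ring

lemma p2_deriv (t : ℝ) : HasDerivAt (p2 a w) (q2 a w t) t := by
  have hr : 0 < √((t - a) ^ 2 + w ^ 2) := Real.sqrt_pos.2 (den_pos a t hw)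
  refine ((hasDerivAt_const t w).div (r_deriv hw t) hr.ne').congr_deriv ?_
  rw [q2]
  field_simp
  ring

lemma p1_smooth : ContDiff ℝ ∞ (p1 a w) := by
  unfold p1
  refine ContDiff.div (by fun_prop) (ContDiff.sqrt (by fun_prop) fun t => (den_pos a t hw).ne')
    fun t => (Real.sqrt_pos.2 (den_pos a t hw)).ne'

lemma p2_smooth : ContDiff ℝ ∞ (p2 a w) := by
  unfold p2
  refine ContDiff.div (by fun_prop) (ContDiff.sqrt (by fun_prop) fun t => (den_pos a t hw).ne')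
    fun t => (Real.sqrt_pos.2 (den_pos a t hw)).ne'

lemma p_sq (t : ℝ) : p1 a w t ^ 2 = 1 - fA a w t ∧ p2 a w t ^ 2 = fA a w t ∧
    p1 a w t * p2 a w t = fB a w t := by
  have hr : 0 < √((t - a) ^ 2 + w ^ 2) := Real.sqrt_pos.2 (den_pos a t hw)
  have hs : √((t - a) ^ 2 + w ^ 2) ^ 2 = (t - a) ^ 2 + w ^ 2 := Real.sq_sqrt (den_pos a t hw).le
  have hd := den_pos a t hw
  refine ⟨?_, ?_, ?_⟩
  · rw [p1, div_pow, hs, fA]; field_simp; ring
  · rw [p2, div_pow, hs, fA]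
  · rw [p1, p2, div_mul_div_comm, ← pow_two, hs, fB]

lemma pq_zero (t : ℝ) : p1 a w t * q1 a w t + p2 a w t * q2 a w t = 0 := by
  have hr : 0 < √((t - a) ^ 2 + w ^ 2) := Real.sqrt_pos.2 (den_pos a t hw)
  rw [p1, p2, q1, q2]
  field_simp
  ring

lemma q_sq (t : ℝ) : q1 a w t ^ 2 + q2 a w t ^ 2 ≤ (w ^ 2)⁻¹ * fA a w t := by
  have hr : 0 < √((t - a) ^ 2 + w ^ 2) := Real.sqrt_pos.2 (den_pos a t hw)
  have hs : √((t - a) ^ 2 + w ^ 2) ^ 2 = (t - a) ^ 2 + w ^ 2 := Real.sq_sqrt (den_pos a t hw).le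
  have hd := den_pos a t hw
  have e : q1 a w t ^ 2 + q2 a w t ^ 2 = ((t - a) ^ 2 + w ^ 2)⁻¹ * fA a w t := by
    have hs3 : (√((t - a) ^ 2 + w ^ 2) ^ 3) ^ 2 = ((t - a) ^ 2 + w ^ 2) ^ 3 := by
      rw [← pow_mul, show 3 * 2 = 2 * 3 by norm_num, pow_mul, hs]
    rw [q1, q2, div_pow, div_pow, hs3, fA]
    field_simp
    ring
  rw [e]
  refine mul_le_mul_of_nonneg_right ?_ (fA_nonneg _ _ _)
  exact inv_anti₀ (by positivity) (by nlinarith [sq_nonneg (t - a)])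

lemma p_le (t : ℝ) : |p1 a w t| ≤ 1 ∧ |p2 a w t| ≤ 1 := by
  obtain ⟨h1, h2, -⟩ := p_sq hw t (a := a)
  have h3 := fA_nonneg a w t
  have h4 := fA_le a w t
  constructor
  · rw [← sq_le_one_iff_abs_le_one, h1]; linarith
  · rw [← sq_le_one_iff_abs_le_one, h2]; exact h4

lemma q_le (t : ℝ) : |q1 a w t| ≤ w⁻¹ ∧ |q2 a w t| ≤ w⁻¹ := by
  have h1 := q_sq hw t (a := a)
  have h4 := fA_le a w t
  have h5 : (w ^ 2)⁻¹ * fA a w t ≤ (w ^ 2)⁻¹ := mul_le_of_le_one_right (by positivity) h4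
  have h6 : (w ^ 2)⁻¹ = (w⁻¹) ^ 2 := by rw [inv_pow]
  have h7 : 0 < w⁻¹ := by positivity
  constructor
  · refine abs_le_of_sq_le_sq ?_ h7.le
    nlinarith [sq_nonneg (q2 a w t)]
  · refine abs_le_of_sq_le_sq ?_ h7.le
    nlinarith [sq_nonneg (q1 a w t)]

end Pool.Agent.TH199.MY
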