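import Pool.Agent.TH199.MY.GeoD3
import Pool.Agent.TH199.MY.Sob

set_option autoImplicit false
set_option linter.unusedSectionVars false
set_option linter.deprecated false

open MeasureTheory Set Filter Topology Real
open scoped ContDiff RealInnerProductSpace

namespace Pool.Agent.TH199.MY.D

variable {d : ℕ}

/-- The partial derivative. -/
noncomputable def pd (i : Fin d) (η : V d → ℝ) (x : V d) : ℝ :=
  fderiv ℝ η x (EuclideanSpace.single i 1)

lemma pd_cont {η : V d → ℝ} (h : ContDiff ℝ ∞ η) (i : Fin d) : Continuous (pd i η) := by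
  unfold pd
  exact (h.continuous_fderiv (by simp)).clm_apply continuous_const

lemma pd_supp {η : V d → ℝ} (h : HasCompactSupport η) (i : Fin d) : HasCompactSupport (pd i η) := by
  have h1 := h.fderiv (𝕜 := ℝ)
  exact h1.comp_left (g := fun L : V d →L[ℝ] ℝ => L (EuclideanSpace.single i 1)) rfl

lemma pd_mul {b η : V d → ℝ} (hb : ContDiff ℝ ∞ b) (hη : ContDiff ℝ ∞ η) (i : Fin d) (x : V d) :
    pd i (fun x => b x * η x) x = b x * pd i η x + η x * pd i b x := by
  unfold pd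
  have h1 : DifferentiableAt ℝ b x := (hb.differentiable (by simp)) x
  have h2 : DifferentiableAt ℝ η x := (hη.differentiable (by simp)) x
  rw [fderiv_fun_mul h1 h2]
  simp [smul_eq_mul]

lemma memLp_ofReal {f : V d → ℝ} (hc : Continuous f) (hs : HasCompactSupport f) :
    MemLp (fun x => ((f x : ℝ) : ℂ)) 2 :=
  (hc.memLp_of_hasCompactSupport hs).ofReal

/-- The product rule for weak derivatives. -/
lemma prod_weak {f : V d → ℂ} {g : Fin d → V d → ℂ} (hf : MemLp f 2) (hg : ∀ i, MemLp (g i) 2)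
    (hw : ∀ η : V d → ℝ, ContDiff ℝ ∞ η → HasCompactSupport η → ∀ i,
      ∫ x, f x * ((pd i η x : ℝ) : ℂ) = -∫ x, g i x * ((η x : ℝ) : ℂ))
    {b : V d → ℝ} (hb : ContDiff ℝ ∞ b) {η : V d → ℝ} (hη : ContDiff ℝ ∞ η)
    (hs : HasCompactSupport η) (i : Fin d) :
    ∫ x, f x * ((b x : ℝ) : ℂ) * ((pd i η x : ℝ) : ℂ) =
      -∫ x, (g i x * ((b x : ℝ) : ℂ) + f x * ((pd i b x : ℝ) : ℂ)) * ((η x : ℝ) : ℂ) := by
  have hbη : ContDiff ℝ ∞ (fun x => b x * η x) := hb.mul hη
  have hbs : HasCompactSupport (fun x => b x * η x) := hs.mul_left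
  have h1 := hw _ hbη hbs i
  have c1 : MemLp (fun x => ((pd i (fun x => b x * η x) x : ℝ) : ℂ)) 2 :=
    memLp_ofReal (pd_cont hbη i) (pd_supp hbs i)
  have c2 : MemLp (fun x => ((η x * pd i b x : ℝ) : ℂ)) 2 :=
    memLp_ofReal (hη.continuous.mul (pd_cont hb i)) hs.mul_right
  have c3 : MemLp (fun x => ((b x * η x : ℝ) : ℂ)) 2 := memLp_ofReal hbη.continuous hbs
  have i1 : Integrable (fun x => f x * ((pd i (fun x => b x * η x) x : ℝ) : ℂ)) :=
    hf.integrable_mul c1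
  have i2 : Integrable (fun x => f x * ((η x * pd i b x : ℝ) : ℂ)) := hf.integrable_mul c2
  have i3 : Integrable (fun x => g i x * ((b x * η x : ℝ) : ℂ)) := (hg i).integrable_mul c3
  have e1 : ∀ x, f x * ((b x : ℝ) : ℂ) * ((pd i η x : ℝ) : ℂ) =
      f x * ((pd i (fun x => b x * η x) x : ℝ) : ℂ) - f x * ((η x * pd i b x : ℝ) : ℂ) := by
    intro x
    rw [pd_mul hb hη]
    push_cast
    ring
  have e2 : ∀ x, (g i x * ((b x : ℝ) : ℂ) + f x * ((pd i b x : ℝ) : ℂ)) * ((η x : ℝ) : ℂ) =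
      g i x * ((b x * η x : ℝ) : ℂ) + f x * ((η x * pd i b x : ℝ) : ℂ) := by
    intro x
    push_cast
    ring
  simp only [e1, e2]
  rw [integral_sub i1 i2, integral_add i3 i2, h1]
  ring

/-- Functions of the linear functional. -/
lemma comp_contDiff {h : ℝ → ℝ} (hh : ContDiff ℝ ∞ h) (c : V d) :
    ContDiff ℝ ∞ (fun x : V d => h ⟪c, x⟫) :=
  hh.comp (innerSL ℝ c).contDiff

lemma comp_pd {h h' : ℝ → ℝ} (hd : ∀ t, HasDerivAt h (h' t) t) (c : V d) (i : Fin d)
    (x : V d) : pd i (fun x : V d => h ⟪c, x⟫) x = h' ⟪c, x⟫ * c i := by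
  unfold pd
  have h1 : HasFDerivAt (fun x : V d => ⟪c, x⟫) (innerSL ℝ c) x := (innerSL ℝ c).hasFDerivAt
  have h2 := (hd ⟪c, x⟫).comp_hasFDerivAt x h1
  have h3 := h2.fderiv
  change fderiv ℝ (h ∘ fun x : V d => ⟪c, x⟫) x (EuclideanSpace.single i 1) = _
  rw [h3]
  simp [EuclideanSpace.inner_single_right]

end Pool.Agent.TH199.MY.D
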